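import Pool.Agent.Q91.TE.Proj

/-!
# Products of closed subspaces of `ℓ²`

`dm V x` is the squared length of the projection of the basis vector at `x` to the closed subspace `V`.
-/

set_option autoImplicit false

namespace Pool.Agent.Q16.TP

open scoped InnerProductSpace ENNReal
open Pool.Agent.Q91.TE

universe u v w

open Classical in
/-- one minus the square of the distance of the basis vector at `x` to `V` -/
noncomputable def dm {X : Type u} (V : Set (lp (fun _ : X => ℂ) 2)) (x : X) : ℝ :=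
  1 - Metric.infDist (lp.single (E := fun _ : X => ℂ) 2 x (1 : ℂ)) V ^ 2

variable {X : Type u} {Y : Type v} {Z : Type w}

/-- the reproducing vector -/
theorem exists_rep (V : Submodule ℂ (lp (fun _ : X => ℂ) 2))
    (hc : IsClosed (V : Set (lp (fun _ : X => ℂ) 2))) (x : X) :
    ∃ u ∈ V, (∀ f ∈ V, ⟪u, f⟫_ℂ = f x) ∧ ‖u‖ ^ 2 = dm (V : Set (lp (fun _ : X => ℂ) 2)) x := by
  classical
  have : CompleteSpace V := hc.completeSpace_coe
  set δ : lp (fun _ : X => ℂ) 2 := lp.single (E := fun _ : X => ℂ) 2 x (1 : ℂ) with hδ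
  set u : lp (fun _ : X => ℂ) 2 := V.starProjection δ with hu
  have humem : u ∈ V := Submodule.starProjection_apply_mem _ _
  have hin : ∀ v : lp (fun _ : X => ℂ) 2, ⟪δ, v⟫_ℂ = v x := by
    intro v
    rw [hδ, lp.inner_single_left]
    simp
  have horth : ∀ f ∈ V, ⟪u, f⟫_ℂ = f x := by
    intro f hf
    have h1 : ⟪f, δ - u⟫_ℂ = 0 :=
      (Submodule.mem_orthogonal _ _).1 (Submodule.sub_starProjection_mem_orthogonal (K := V) δ) f hf
    have h2 : ⟪δ - u, f⟫_ℂ = 0 := by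
      rw [← inner_conj_symm, h1, map_zero]
    rw [inner_sub_left, sub_eq_zero] at h2
    rw [← h2, hin]
  refine ⟨u, humem, horth, ?_⟩
  have h1 : Metric.infDist δ (V : Set (lp (fun _ : X => ℂ) 2)) = ‖δ - u‖ := by
    rw [hu, Submodule.starProjection_minimal, Metric.infDist_eq_iInf]
    simp only [dist_eq_norm]
    rfl
  have hδn : ‖δ‖ = 1 := by
    rw [hδ]
    simp
  have h3 : ⟪δ, u⟫_ℂ = ⟪u, u⟫_ℂ := by
    rw [hin, horth u humem]
  have h6 : ‖δ - u‖ ^ 2 = 1 - ‖u‖ ^ 2 := by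
    rw [@norm_sub_sq ℂ, h3, inner_self_eq_norm_sq_to_K, hδn]
    have : RCLike.re (((‖u‖ : ℝ) : ℂ) ^ 2) = ‖u‖ ^ 2 := by
      rw [← Complex.ofReal_pow]
      exact Complex.ofReal_re _
    rw [show (RCLike.ofReal ‖u‖ : ℂ) = ((‖u‖ : ℝ) : ℂ) from rfl, this]
    ring
  have h7 : dm (V : Set (lp (fun _ : X => ℂ) 2)) x =
      1 - Metric.infDist δ (V : Set (lp (fun _ : X => ℂ) 2)) ^ 2 := by
    unfold dm
    rfl
  rw [h7, h1, h6]
  ring

/-- a reproducing vector gives the value of `dm` -/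
theorem dm_eq (V : Submodule ℂ (lp (fun _ : X => ℂ) 2))
    (hc : IsClosed (V : Set (lp (fun _ : X => ℂ) 2))) (x : X) {u : lp (fun _ : X => ℂ) 2}
    (hu : u ∈ V) (h : ∀ f ∈ V, ⟪u, f⟫_ℂ = f x) :
    dm (V : Set (lp (fun _ : X => ℂ) 2)) x = ‖u‖ ^ 2 := by
  obtain ⟨w, hw, h1, h2⟩ := exists_rep V hc x
  have h3 : u = w := by
    have h4 : ⟪u - w, u - w⟫_ℂ = 0 := by
      rw [inner_sub_left, h _ (V.sub_mem hu hw), h1 _ (V.sub_mem hu hw), sub_self]
    exact sub_eq_zero.1 (inner_self_eq_zero.1 h4)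
  rw [← h2, h3]

/-- the slices of a square-summable function on a product -/
theorem exists_slice (e : X × Y ≃ Z) (f : lp (fun _ : Z => ℂ) 2) (y : Y) :
    ∃ g : lp (fun _ : X => ℂ) 2, ∀ x, g x = f (e (x, y)) := by
  have h : Memℓp (E := fun _ : X => ℂ) (fun x => f (e (x, y))) 2 := by
    refine memℓp_gen ?_
    have h1 := (lp.memℓp f).summable (by norm_num)
    exact h1.comp_injective (i := fun x => e (x, y)) fun a b hab => by
      have := e.injective hab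
      exact (Prod.mk.inj this).1
  exact ⟨⟨_, h⟩, fun x => rfl⟩

/-- the tensor product of two square-summable functions -/
theorem exists_tensor (e : X × Y ≃ Z) (u : lp (fun _ : X => ℂ) 2) (v : lp (fun _ : Y => ℂ) 2) :
    ∃ g : lp (fun _ : Z => ℂ) 2, (∀ x y, g (e (x, y)) = u x * v y) ∧
      ‖g‖ ^ 2 = ‖u‖ ^ 2 * ‖v‖ ^ 2 := by
  have hs : Summable fun p : X × Y => ‖u p.1‖ ^ 2 * ‖v p.2‖ ^ 2 :=
    (summable_sq_lp u).mul_of_nonneg (summable_sq_lp v) (fun _ => by positivity)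
      (fun _ => by positivity)
  have hs2 : Summable fun z : Z => ‖u (e.symm z).1 * v (e.symm z).2‖ ^ 2 := by
    have h1 := (e.symm.summable_iff (f := fun p : X × Y => ‖u p.1‖ ^ 2 * ‖v p.2‖ ^ 2)).2 hs
    refine h1.congr fun z => ?_
    simp only [Function.comp, norm_mul, mul_pow]
  have h : Memℓp (E := fun _ : Z => ℂ) (fun z => u (e.symm z).1 * v (e.symm z).2) 2 := by
    refine memℓp_gen ?_
    have e2 : ENNReal.toReal 2 = ((2 : ℕ) : ℝ) := by norm_num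
    rw [e2]
    simp only [Real.rpow_natCast]
    exact hs2
  refine ⟨⟨_, h⟩, fun x y => ?_, ?_⟩
  · show u (e.symm (e (x, y))).1 * v (e.symm (e (x, y))).2 = _
    rw [e.symm_apply_apply]
  · rw [norm_sq_lp, norm_sq_lp, norm_sq_lp]
    have h1 : ∑' z : Z, ‖u (e.symm z).1 * v (e.symm z).2‖ ^ 2 =
        ∑' p : X × Y, ‖u p.1‖ ^ 2 * ‖v p.2‖ ^ 2 := by
      rw [← e.symm.tsum_eq fun p : X × Y => ‖u p.1‖ ^ 2 * ‖v p.2‖ ^ 2]
      refine tsum_congr fun z => ?_
      rw [norm_mul, mul_pow]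
    refine h1.trans ?_
    exact ((summable_sq_lp u).tsum_mul_tsum (summable_sq_lp v) hs).symm

/-- **Products.** If the slices of the members of `K` are in `V` and in `W`, and `K` contains the tensor
products, then the squared lengths of the projections multiply. -/
theorem dm_prod (e : X × Y ≃ Z) (V : Submodule ℂ (lp (fun _ : X => ℂ) 2))
    (W : Submodule ℂ (lp (fun _ : Y => ℂ) 2)) (K : Submodule ℂ (lp (fun _ : Z => ℂ) 2))
    (hV : IsClosed (V : Set (lp (fun _ : X => ℂ) 2))) (hW : IsClosed (W : Set (lp (fun _ : Y => ℂ) 2)))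
    (hK : IsClosed (K : Set (lp (fun _ : Z => ℂ) 2)))
    (h1 : ∀ f ∈ K, ∀ y, ∀ g : lp (fun _ : X => ℂ) 2, (∀ x, g x = f (e (x, y))) → g ∈ V)
    (h2 : ∀ f ∈ K, ∀ x, ∀ g : lp (fun _ : Y => ℂ) 2, (∀ y, g y = f (e (x, y))) → g ∈ W)
    (h3 : ∀ u ∈ V, ∀ v ∈ W, ∀ g : lp (fun _ : Z => ℂ) 2, (∀ x y, g (e (x, y)) = u x * v y) → g ∈ K)
    (x : X) (y : Y) :
    dm (K : Set (lp (fun _ : Z => ℂ) 2)) (e (x, y)) =
      dm (V : Set (lp (fun _ : X => ℂ) 2)) x * dm (W : Set (lp (fun _ : Y => ℂ) 2)) y := by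
  obtain ⟨u, hu, hu1, hu2⟩ := exists_rep V hV x
  obtain ⟨v, hv, hv1, hv2⟩ := exists_rep W hW y
  obtain ⟨g, hg, hgn⟩ := exists_tensor e u v
  have hgK := h3 u hu v hv g hg
  rw [dm_eq K hK (e (x, y)) hgK ?_, hgn, hu2, hv2]
  intro f hf
  have hsum : HasSum (fun z => ⟪g z, f z⟫_ℂ) ⟪g, f⟫_ℂ := lp.hasSum_inner g f
  have hsum2 : HasSum (fun p : X × Y => ⟪g (e p), f (e p)⟫_ℂ) ⟪g, f⟫_ℂ :=
    (e.hasSum_iff (f := fun z => ⟪g z, f z⟫_ℂ)).2 hsum
  have hsum3 : HasSum (fun p : Y × X => ⟪g (e (p.2, p.1)), f (e (p.2, p.1))⟫_ℂ) ⟪g, f⟫_ℂ :=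
    ((Equiv.prodComm Y X).hasSum_iff (f := fun p : X × Y => ⟪g (e p), f (e p)⟫_ℂ)).2 hsum2
  have hfib : ∀ t : Y, HasSum (fun s : X => ⟪g (e (s, t)), f (e (s, t))⟫_ℂ)
      (starRingEnd ℂ (v t) * f (e (x, t))) := by
    intro t
    obtain ⟨k, hk⟩ := exists_slice e f t
    have hkV := h1 f hf t k hk
    have h4 : HasSum (fun s => ⟪u s, k s⟫_ℂ) ⟪u, k⟫_ℂ := lp.hasSum_inner u k
    rw [hu1 k hkV, hk x] at h4
    refine (h4.mul_left (starRingEnd ℂ (v t))).congr_fun fun s => ?_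
    rw [hg s t, hk s]
    simp only [RCLike.inner_apply, map_mul]
    ring
  have h5 := hsum3.prod_fiberwise hfib
  obtain ⟨k, hk⟩ := exists_slice ((Equiv.prodComm Y X).trans e) f x
  have hk' : ∀ t, k t = f (e (x, t)) := hk
  have hkW := h2 f hf x k hk'
  have h6 : HasSum (fun t => ⟪v t, k t⟫_ℂ) ⟪v, k⟫_ℂ := lp.hasSum_inner v k
  rw [hv1 k hkW, hk' y] at h6
  have h7 : HasSum (fun t => starRingEnd ℂ (v t) * f (e (x, t))) (f (e (x, y))) := by
    refine h6.congr_fun fun t => ?_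
    rw [hk' t]
    simp only [RCLike.inner_apply]
    ring
  exact h5.unique h7

end Pool.Agent.Q16.TP
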