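import Pool.Agent.Q16.TP.Basic

/-!
# Kernel dimensions over products of groups
-/

set_option autoImplicit false

namespace Pool.Agent.Q16.TP

open scoped InnerProductSpace ENNReal
open Pool.Agent.Q91.TE

/-- The kernel of right multiplication by the matrix `A` over the complex group ring on row vectors over
`ℓ²(G)`: all square-summable `x` with `x A = 0`. -/
def kernel {G : Type} [Group G] {ι κ : Type} [Fintype ι] (A : Matrix ι κ (G →₀ ℂ)) :
    Set (lp (fun _ : ι × G => ℂ) 2) :=
  {x | ∀ (j : κ) (g : G), ∑ k : ι, ∑ h ∈ (A k j).support, x (k, g * h⁻¹) * A k j h = 0}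

open Classical in
/-- The von Neumann dimension of that kernel: the sum over `i` of one minus the square of the distance
from the basis vector at `(i, 1)` to the kernel. -/
noncomputable def kerDim {G : Type} [Group G] {ι κ : Type} [Fintype ι] (A : Matrix ι κ (G →₀ ℂ)) : ℝ :=
  ∑ i : ι, (1 - Metric.infDist
    (lp.single (E := fun _ : ι × G => ℂ) 2 (i, (1 : G)) (1 : ℂ)) (kernel A) ^ 2)

section

variable {G : Type} [Group G] {ι κ : Type} [Fintype ι]

theorem kerDim_eq (A : Matrix ι κ (G →₀ ℂ)) : kerDim A = ∑ i : ι, dm (kernel A) (i, (1 : G)) := by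
  classical
  unfold kerDim dm
  refine Finset.sum_congr rfl fun i _ => ?_
  have key : ∀ d d' : DecidableEq (ι × G),
      (1 - Metric.infDist (@lp.single (ι × G) (fun _ => ℂ) _ d 2 (i, (1 : G)) (1 : ℂ)) (kernel A) ^ 2 : ℝ) =
      1 - Metric.infDist (@lp.single (ι × G) (fun _ => ℂ) _ d' 2 (i, (1 : G)) (1 : ℂ)) (kernel A) ^ 2 := by
    intro d d'
    rw [Subsingleton.elim d d']
  exact key _ _

/-- the kernel as a closed subspace -/
noncomputable def kerS (A : Matrix ι κ (G →₀ ℂ)) : Submodule ℂ (lp (fun _ : ι × G => ℂ) 2) :=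
  VS (fun p : κ × G => Finset.univ.sigma fun k : ι => (A k p.1).support)
    (fun p t => A t.1 p.1 t.2) (fun p t => (t.1, p.2 * (t.2)⁻¹))

theorem mem_kerS (A : Matrix ι κ (G →₀ ℂ)) (x : lp (fun _ : ι × G => ℂ) 2) :
    x ∈ kerS A ↔ x ∈ kernel A := by
  have key : ∀ (j : κ) (g : G),
      ∑ t ∈ Finset.univ.sigma (fun k : ι => (A k j).support), A t.1 j t.2 * x (t.1, g * (t.2)⁻¹)
        = ∑ k : ι, ∑ h ∈ (A k j).support, x (k, g * h⁻¹) * A k j h := by
    intro j g
    rw [Finset.sum_sigma]
    exact Finset.sum_congr rfl fun k _ => Finset.sum_congr rfl fun h _ => mul_comm _ _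
  constructor
  · intro h j g
    rw [← key]
    exact h (j, g)
  · intro h p
    have := h p.1 p.2
    rw [← key] at this
    exact this

theorem coe_kerS (A : Matrix ι κ (G →₀ ℂ)) :
    (kerS A : Set (lp (fun _ : ι × G => ℂ) 2)) = kernel A := by
  ext x
  exact mem_kerS A x

theorem isClosed_kerS (A : Matrix ι κ (G →₀ ℂ)) :
    IsClosed (kerS A : Set (lp (fun _ : ι × G => ℂ) 2)) := isClosed_VS _ _ _

end

section prod

variable {G H : Type} [Group G] [Group H] {ι κ ι' κ' : Type} [Fintype ι] [Fintype ι']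

open Classical in
/-- the matrix `(A ⊗ 1, 1 ⊗ B)` over `ℂ[G × H]` -/
noncomputable def pm (A : Matrix ι κ (G →₀ ℂ)) (B : Matrix ι' κ' (H →₀ ℂ)) :
    Matrix (ι × ι') ((κ × ι') ⊕ (ι × κ')) (G × H →₀ ℂ) :=
  fun i j => match j with
    | Sum.inl j => if i.2 = j.2 then (A i.1 j.1).embDomain ⟨fun g => (g, 1), fun _ _ h => (Prod.mk.inj h).1⟩
        else 0
    | Sum.inr j => if i.1 = j.1 then (B i.2 j.2).embDomain ⟨fun h => (1, h), fun _ _ h => (Prod.mk.inj h).2⟩
        else 0

/-- the identification of the index sets -/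
def ix : (ι × G) × (ι' × H) ≃ (ι × ι') × (G × H) where
  toFun p := ((p.1.1, p.2.1), (p.1.2, p.2.2))
  invFun q := ((q.1.1, q.2.1), (q.1.2, q.2.2))
  left_inv _ := rfl
  right_inv _ := rfl

theorem mem_kernel_pm (A : Matrix ι κ (G →₀ ℂ)) (B : Matrix ι' κ' (H →₀ ℂ))
    (x : lp (fun _ : (ι × ι') × (G × H) => ℂ) 2) :
    x ∈ kernel (pm A B) ↔
      (∀ (j : κ) (g : G) (i' : ι') (h : H), ∑ k : ι, ∑ a ∈ (A k j).support,
        x ((k, i'), (g * a⁻¹, h)) * A k j a = 0) ∧
      ∀ (i : ι) (g : G) (j : κ') (h : H), ∑ k : ι', ∑ b ∈ (B k j).support,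
        x ((i, k), (g, h * b⁻¹)) * B k j b = 0 := by
  classical
  have e1 : ∀ (j : κ) (i' : ι') (p : G × H), ∑ k : ι × ι', ∑ t ∈ (pm A B k (Sum.inl (j, i'))).support,
      x (k, p * t⁻¹) * pm A B k (Sum.inl (j, i')) t =
      ∑ k : ι, ∑ a ∈ (A k j).support, x ((k, i'), (p.1 * a⁻¹, p.2)) * A k j a := by
    intro j i' p
    rw [Fintype.sum_prod_type]
    refine Finset.sum_congr rfl fun k _ => ?_
    rw [Finset.sum_eq_single i']
    · have h1 : pm A B (k, i') (Sum.inl (j, i')) =
          (A k j).embDomain ⟨fun g => (g, 1), fun _ _ h => (Prod.mk.inj h).1⟩ := by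
        simp [pm]
      rw [h1, Finsupp.support_embDomain, Finset.sum_map]
      refine Finset.sum_congr rfl fun a _ => ?_
      rw [Finsupp.embDomain_apply_self]
      have h2 : p * ((a, (1 : H)) : G × H)⁻¹ = (p.1 * a⁻¹, p.2) := by
        ext <;> simp
      show x ((k, i'), p * ((a, (1 : H)) : G × H)⁻¹) * A k j a = _
      rw [h2]
    · intro b _ hb
      have h1 : pm A B (k, b) (Sum.inl (j, i')) = 0 := by
        simp [pm, hb]
      rw [h1]
      simp
    · intro h
      exact absurd (Finset.mem_univ _) h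
  have e2 : ∀ (i : ι) (j : κ') (p : G × H), ∑ k : ι × ι', ∑ t ∈ (pm A B k (Sum.inr (i, j))).support,
      x (k, p * t⁻¹) * pm A B k (Sum.inr (i, j)) t =
      ∑ k : ι', ∑ b ∈ (B k j).support, x ((i, k), (p.1, p.2 * b⁻¹)) * B k j b := by
    intro i j p
    rw [Fintype.sum_prod_type, Finset.sum_eq_single i]
    · refine Finset.sum_congr rfl fun k _ => ?_
      have h1 : pm A B (i, k) (Sum.inr (i, j)) =
          (B k j).embDomain ⟨fun h => (1, h), fun _ _ h => (Prod.mk.inj h).2⟩ := by
        simp [pm]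
      rw [h1, Finsupp.support_embDomain, Finset.sum_map]
      refine Finset.sum_congr rfl fun a _ => ?_
      rw [Finsupp.embDomain_apply_self]
      have h2 : p * (((1 : G), a) : G × H)⁻¹ = (p.1, p.2 * a⁻¹) := by
        ext <;> simp
      show x ((i, k), p * (((1 : G), a) : G × H)⁻¹) * B k j a = _
      rw [h2]
    · intro b _ hb
      refine Finset.sum_eq_zero fun k _ => ?_
      have h1 : pm A B (b, k) (Sum.inr (i, j)) = 0 := by
        simp [pm, hb]
      rw [h1]
      simp
    · intro h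
      exact absurd (Finset.mem_univ _) h
  constructor
  · intro h
    refine ⟨fun j g i' h' => ?_, fun i g j h' => ?_⟩
    · rw [← e1 j i' (g, h')]
      exact h _ _
    · rw [← e2 i j (g, h')]
      exact h _ _
  · rintro ⟨h1, h2⟩ j p
    rcases j with ⟨j, i'⟩ | ⟨i, j⟩
    · exact (e1 j i' p).trans (h1 j p.1 i' p.2)
    · exact (e2 i j p).trans (h2 i p.1 j p.2)

/-- **Kernel dimensions multiply.** -/
theorem kerDim_pm (A : Matrix ι κ (G →₀ ℂ)) (B : Matrix ι' κ' (H →₀ ℂ)) :
    kerDim (pm A B) = kerDim A * kerDim B := by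
  rw [kerDim_eq, kerDim_eq, kerDim_eq, Finset.sum_mul_sum, Fintype.sum_prod_type]
  refine Finset.sum_congr rfl fun i _ => Finset.sum_congr rfl fun i' _ => ?_
  rw [← coe_kerS, ← coe_kerS, ← coe_kerS]
  refine dm_prod (ix (G := G) (H := H) (ι := ι) (ι' := ι')) (kerS A) (kerS B) (kerS (pm A B))
    (isClosed_kerS A) (isClosed_kerS B) (isClosed_kerS _) ?_ ?_ ?_ (i, 1) (i', 1)
  · intro f hf y g hg
    rw [mem_kerS] at hf ⊢
    intro j g'
    have h1 := ((mem_kernel_pm A B f).1 hf).1 j g' y.1 y.2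
    rw [← h1]
    refine Finset.sum_congr rfl fun k _ => Finset.sum_congr rfl fun a _ => ?_
    rw [hg]
    rfl
  · intro f hf x g hg
    rw [mem_kerS] at hf ⊢
    intro j h'
    have h1 := ((mem_kernel_pm A B f).1 hf).2 x.1 x.2 j h'
    rw [← h1]
    refine Finset.sum_congr rfl fun k _ => Finset.sum_congr rfl fun a _ => ?_
    rw [hg]
    rfl
  · intro u hu v hv g hg
    rw [mem_kerS] at hu hv ⊢
    rw [mem_kernel_pm]
    have hg' : ∀ (k : ι) (a : G) (k' : ι') (b : H), g ((k, k'), (a, b)) = u (k, a) * v (k', b) :=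
      fun k a k' b => hg (k, a) (k', b)
    constructor
    · intro j a i' b
      have h1 := hu j a
      simp only [hg']
      calc ∑ k : ι, ∑ c ∈ (A k j).support, u (k, a * c⁻¹) * v (i', b) * A k j c
          = (∑ k : ι, ∑ c ∈ (A k j).support, u (k, a * c⁻¹) * A k j c) * v (i', b) := by
            rw [Finset.sum_mul]
            refine Finset.sum_congr rfl fun k _ => ?_
            rw [Finset.sum_mul]
            exact Finset.sum_congr rfl fun c _ => by ring
        _ = 0 := by rw [h1, zero_mul]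
    · intro i a j b
      have h1 := hv j b
      simp only [hg']
      calc ∑ k : ι', ∑ c ∈ (B k j).support, u (i, a) * v (k, b * c⁻¹) * B k j c
          = u (i, a) * ∑ k : ι', ∑ c ∈ (B k j).support, v (k, b * c⁻¹) * B k j c := by
            rw [Finset.mul_sum]
            refine Finset.sum_congr rfl fun k _ => ?_
            rw [Finset.mul_sum]
            exact Finset.sum_congr rfl fun c _ => by ring
        _ = 0 := by rw [h1, mul_zero]

omit [Fintype ι] [Fintype ι'] in
theorem pm_mem (F : Subfield ℂ) {A : Matrix ι κ (G →₀ ℂ)} {B : Matrix ι' κ' (H →₀ ℂ)}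
    (hA : ∀ i j g, A i j g ∈ F) (hB : ∀ i j g, B i j g ∈ F) : ∀ i j t, pm A B i j t ∈ F := by
  classical
  have hemb : ∀ {α β : Type} (f : α ↪ β) (v : α →₀ ℂ), (∀ a, v a ∈ F) →
      ∀ b, v.embDomain f b ∈ F := by
    intro α β f v hv b
    by_cases hb : b ∈ Set.range f
    · obtain ⟨a, rfl⟩ := hb
      rw [Finsupp.embDomain_apply_self]
      exact hv a
    · rw [Finsupp.embDomain_of_notMem_range _ _ _ hb]
      exact F.zero_mem
  intro i j t
  rcases j with j | j
  · by_cases h : i.2 = j.2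
    · have e : pm A B i (Sum.inl j) =
          (A i.1 j.1).embDomain ⟨fun g => (g, 1), fun _ _ h => (Prod.mk.inj h).1⟩ := by
        simp [pm, h]
      rw [e]
      exact hemb _ _ (hA _ _) t
    · have e : pm A B i (Sum.inl j) = 0 := by simp [pm, h]
      rw [e]
      exact F.zero_mem
  · by_cases h : i.1 = j.1
    · have e : pm A B i (Sum.inr j) =
          (B i.2 j.2).embDomain ⟨fun h => (1, h), fun _ _ h => (Prod.mk.inj h).2⟩ := by
        simp [pm, h]
      rw [e]
      exact hemb _ _ (hB _ _) t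
    · have e : pm A B i (Sum.inr j) = 0 := by simp [pm, h]
      rw [e]
      exact F.zero_mem

end prod

/-- the matrix with one row and no column has kernel dimension one -/
theorem kerDim_empty (G : Type) [Group G] :
    kerDim (fun _ j => Empty.elim j : Matrix Unit Empty (G →₀ ℂ)) = 1 := by
  classical
  have h : kernel (fun _ j => Empty.elim j : Matrix Unit Empty (G →₀ ℂ)) = Set.univ := by
    ext x
    simp only [Set.mem_univ, iff_true]
    intro j
    exact j.elim
  unfold kerDim
  rw [h]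
  simp [Metric.infDist_zero_of_mem]

end Pool.Agent.Q16.TP
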